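import Pool.Agent.Helper17.RZ.St1

/-!
# Project RZ, module A2: the `p`-adic valuation of `F(t)`
-/

set_option autoImplicit false

open Polynomial

namespace Pool.Agent.Helper51.RZ

open Pool.Agent.Helper17.RZ

universe u

namespace PadicAux

variable {F : Type u} [Field F]

/-- multiplicity of `p` in `P` -/
noncomputable def mu (p P : F[X]) : ℤ := (multiplicity p P : ℤ)

theorem mu_nonneg (p P : F[X]) : 0 ≤ mu p P := by unfold mu; positivity

theorem finite {p P : F[X]} (hp : Irreducible p) (hP : P ≠ 0) : FiniteMultiplicity p P :=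
  FiniteMultiplicity.of_not_isUnit hp.not_isUnit hP

theorem le_mu {p P : F[X]} (hp : Irreducible p) (hP : P ≠ 0) (n : ℕ) :
    (n : ℤ) ≤ mu p P ↔ p ^ n ∣ P := by
  unfold mu
  rw [(finite hp hP).pow_dvd_iff_le_multiplicity]
  exact Nat.cast_le

theorem mu_mul {p P Q : F[X]} (hp : Irreducible p) (hP : P ≠ 0) (hQ : Q ≠ 0) :
    mu p (P * Q) = mu p P + mu p Q := by
  unfold mu
  rw [multiplicity_mul hp.prime (finite hp (mul_ne_zero hP hQ))]
  push_cast
  rfl

theorem mu_add {p P Q : F[X]} (hp : Irreducible p) (hP : P ≠ 0) (hQ : Q ≠ 0) (h : P + Q ≠ 0) :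
    min (mu p P) (mu p Q) ≤ mu p (P + Q) := by
  obtain ⟨n, hn⟩ := Int.eq_ofNat_of_zero_le (le_min (mu_nonneg p P) (mu_nonneg p Q))
  rw [hn]
  apply (le_mu hp h n).2
  apply dvd_add
  · exact (le_mu hp hP n).1 (hn ▸ min_le_left _ _)
  · exact (le_mu hp hQ n).1 (hn ▸ min_le_right _ _)

/-- the valuation -/
noncomputable def val (p : F[X]) (x : RatFunc F) : ℤ := mu p x.num - mu p x.denom

theorem pr_mul (P Q : F[X]) : pr (P * Q) = pr P * pr Q := map_mul _ _ _
theorem pr_add (P Q : F[X]) : pr (P + Q) = pr P + pr Q := map_add _ _ _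
theorem pr_sub (P Q : F[X]) : pr (P - Q) = pr P - pr Q := map_sub _ _ _
theorem pr_zero : pr (0 : F[X]) = 0 := map_zero _
theorem pr_one : pr (1 : F[X]) = 1 := map_one _

theorem num_div (x : RatFunc F) : pr x.num / pr x.denom = x := RatFunc.num_div_denom x

theorem pr_ne {P : F[X]} (hP : P ≠ 0) : pr P ≠ 0 := by
  intro h
  apply hP
  exact (IsFractionRing.injective F[X] (RatFunc F)) (by rw [map_zero]; exact h)

theorem val_div {p : F[X]} (hp : Irreducible p) {P Q : F[X]} (hP : P ≠ 0) (hQ : Q ≠ 0) :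
    val p (pr P / pr Q) = mu p P - mu p Q := by
  set x : RatFunc F := pr P / pr Q with hx
  have hx0 : x ≠ 0 := div_ne_zero (pr_ne hP) (pr_ne hQ)
  have hn : x.num ≠ 0 := RatFunc.num_ne_zero hx0
  have hd : x.denom ≠ 0 := RatFunc.denom_ne_zero x
  have h1 : pr x.num / pr x.denom = pr P / pr Q := by
    rw [← hx]; exact num_div x
  rw [div_eq_div_iff (pr_ne hd) (pr_ne hQ)] at h1
  have h2 : x.num * Q = P * x.denom := by
    apply IsFractionRing.injective F[X] (RatFunc F)
    rw [map_mul, map_mul]
    exact h1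
  have h3 : mu p x.num + mu p Q = mu p P + mu p x.denom := by
    rw [← mu_mul hp hn hQ, h2, mu_mul hp hP hd]
  unfold val
  linarith

theorem val_pr {p : F[X]} (hp : Irreducible p) {P : F[X]} (hP : P ≠ 0) :
    val p (pr P) = mu p P := by
  have h := val_div hp hP (one_ne_zero (α := F[X]))
  have h1 : mu p (1 : F[X]) = 0 := by
    have := mu_mul hp (one_ne_zero (α := F[X])) (one_ne_zero (α := F[X]))
    rw [mul_one] at this
    linarith
  rw [h1, pr_one, div_one, sub_zero] at h
  exact h

theorem val_mul {p : F[X]} (hp : Irreducible p) {x y : RatFunc F} (hx : x ≠ 0) (hy : y ≠ 0) :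
    val p (x * y) = val p x + val p y := by
  have hxn := RatFunc.num_ne_zero hx
  have hyn := RatFunc.num_ne_zero hy
  have hxd := RatFunc.denom_ne_zero x
  have hyd := RatFunc.denom_ne_zero y
  have h : x * y = pr (x.num * y.num) / pr (x.denom * y.denom) := by
    rw [pr_mul, pr_mul, ← div_mul_div_comm, num_div, num_div]
  rw [h, val_div hp (mul_ne_zero hxn hyn) (mul_ne_zero hxd hyd), mu_mul hp hxn hyn,
    mu_mul hp hxd hyd]
  unfold val
  ring

theorem val_add {p : F[X]} (hp : Irreducible p) {x y : RatFunc F} (hx : x ≠ 0) (hy : y ≠ 0)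
    (hxy : x + y ≠ 0) : min (val p x) (val p y) ≤ val p (x + y) := by
  have hxn := RatFunc.num_ne_zero hx
  have hyn := RatFunc.num_ne_zero hy
  have hxd := RatFunc.denom_ne_zero x
  have hyd := RatFunc.denom_ne_zero y
  have h : x + y = pr (x.num * y.denom + y.num * x.denom) / pr (x.denom * y.denom) := by
    have h1 := div_add_div (pr x.num) (pr y.num) (pr_ne hxd) (pr_ne hyd)
    rw [num_div, num_div] at h1
    rw [h1, pr_add, pr_mul, pr_mul, pr_mul]
    congr 1
    ring
  have hne : x.num * y.denom + y.num * x.denom ≠ 0 := by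
    intro h0
    apply hxy
    rw [h, h0, pr_zero, zero_div]
  rw [h, val_div hp hne (mul_ne_zero hxd hyd), mu_mul hp hxd hyd]
  have h3 := mu_add hp (mul_ne_zero hxn hyd) (mul_ne_zero hyn hxd) hne
  rw [mu_mul hp hxn hyd, mu_mul hp hyn hxd] at h3
  unfold val
  rcases min_le_iff.mp h3 with h4 | h4
  · exact min_le_iff.mpr (Or.inl (by linarith))
  · exact min_le_iff.mpr (Or.inr (by linarith))

end PadicAux

open PadicAux

theorem padic : Pool.Agent.Helper17.RZ.Padic.{u} := by
  intro F _ p hp
  refine ⟨⟨val p, fun x y hx hy => val_mul hp hx hy, fun x y hx hy hxy => val_add hp hx hy hxy⟩,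
    ?_, ?_, ?_⟩
  · intro P hP
    change 0 ≤ val p (pr P)
    rw [val_pr hp hP]
    exact mu_nonneg p P
  · intro P hP n
    change (n : ℤ) ≤ val p (pr P) ↔ _
    rw [val_pr hp hP]
    exact le_mu hp hP n
  · intro x hx hv
    have hn : x.num ≠ 0 := RatFunc.num_ne_zero hx
    have hd : x.denom ≠ 0 := RatFunc.denom_ne_zero x
    have hv' : mu p x.denom ≤ mu p x.num := by
      have : 0 ≤ mu p x.num - mu p x.denom := hv
      linarith
    have hnd : ¬ p ∣ x.denom := by
      intro h
      have h1 : (1 : ℤ) ≤ mu p x.denom := by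
        have := (le_mu hp hd 1).2 (by rwa [pow_one])
        exact_mod_cast this
      have h2 : p ∣ x.num := by
        have := (le_mu hp hn 1).1 (by push_cast; linarith)
        rwa [pow_one] at this
      exact hp.not_isUnit ((RatFunc.isCoprime_num_denom x).isUnit_of_dvd' h2 h)
    obtain ⟨a, b, hab⟩ := (Irreducible.coprime_iff_not_dvd hp).2 hnd
    refine ⟨b * x.num, ?_⟩
    have h2 : x - pr (b * x.num) = pr (x.num * a * p) / pr x.denom := by
      rw [eq_div_iff (pr_ne hd)]
      have h3 : x * pr x.denom = pr x.num := (div_eq_iff (pr_ne hd)).1 (num_div x) |>.symm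
      rw [sub_mul, h3]
      have h4 : x.num - b * x.num * x.denom = x.num * a * p := by
        have : x.num - b * x.num * x.denom = x.num * (1 - b * x.denom) := by ring
        rw [this, ← hab]; ring
      rw [← h4, pr_sub, pr_mul (b * x.num)]
    by_cases ha : a = 0
    · left
      rw [h2, ha, mul_zero, zero_mul, pr_zero, zero_div]
    · right
      change 1 ≤ val p _
      have hp0 : p ≠ 0 := hp.ne_zero
      rw [h2, val_div hp (mul_ne_zero (mul_ne_zero hn ha) hp0) hd]
      have h5 : mu p x.denom = 0 := by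
        apply le_antisymm _ (mu_nonneg p _)
        by_contra h
        push Not at h
        apply hnd
        have := (le_mu hp hd 1).1 (by push_cast; linarith)
        rwa [pow_one] at this
      have h6 : ((1 : ℕ) : ℤ) ≤ mu p (x.num * a * p) :=
        (le_mu hp (mul_ne_zero (mul_ne_zero hn ha) hp0) 1).2 (by
          rw [pow_one]; exact dvd_mul_left _ _)
      push_cast at h6
      linarith

end Pool.Agent.Helper51.RZ
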